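import Mathlib

set_option autoImplicit false

open Matrix Complex
open scoped Kronecker ComplexOrder

namespace H62.LPD

/-- A sequence `K = (K n)` of sets of `d`-tuples of complex `n × n` matrices. -/
abbrev MatSeq (d : ℕ) := (n : ℕ) → Set (Fin d → Matrix (Fin n) (Fin n) ℂ)

/-- Matrix convex sets of `d`-tuples of self-adjoint matrices: closed under direct sums and under
compressions by isometries. -/
structure IsMatrixConvex {d : ℕ} (K : MatSeq d) : Prop where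
  hermitian : ∀ n, ∀ X ∈ K n, ∀ j, (X j).IsHermitian
  directSum : ∀ m n, ∀ X ∈ K m, ∀ Y ∈ K n,
    (fun j => Matrix.reindex finSumFinEquiv finSumFinEquiv
      (Matrix.fromBlocks (X j) 0 0 (Y j))) ∈ K (m + n)
  compress : ∀ m n, ∀ V : Matrix (Fin n) (Fin m) ℂ, Vᴴ * V = 1 → ∀ X ∈ K n,
    (fun j => Vᴴ * X j * V) ∈ K m

/-- The first level of `K` (`d`-tuples of real numbers) is the set `C` of `ℝ^d`. -/
def FirstLevelIs {d : ℕ} (C : Set (Fin d → ℝ)) (K : MatSeq d) : Prop :=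
  ∀ x : Fin d → ℝ, (fun j => (Matrix.of fun _ _ => (x j : ℂ) : Matrix (Fin 1) (Fin 1) ℂ)) ∈ K 1 ↔
    x ∈ C

/-- `𝒲^min(C)`: the smallest closed matrix convex set whose first level is `C`, i.e. the
intersection of all of them. -/
def Wmin {d : ℕ} (C : Set (Fin d → ℝ)) : MatSeq d := fun n => {X | ∀ K : MatSeq d,
  IsMatrixConvex K → (∀ m, IsClosed (K m)) → FirstLevelIs C K → X ∈ K n}

/-- Coefficient matrices of a matrix with entries in `span {1, z₁, …, z_d}`. -/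
def coef {d : ℕ} {m : Type} (M : Matrix m m (Fin (d + 1) → ℂ)) (j : Fin (d + 1)) : Matrix m m ℂ :=
  M.map (fun s => s j)

/-- The operator system `𝒪(𝒲^min(C))`: its underlying vector space is `Fin (d + 1) → ℂ` with
basis `1, z₁, …, z_d`; this is the cone of positive elements of `M_m(𝒪(𝒲^min(C)))`. -/
def OPos {d : ℕ} (C : Set (Fin d → ℝ)) {m : ℕ} (M : Matrix (Fin m) (Fin m) (Fin (d + 1) → ℂ)) :
    Prop :=
  ∀ n, ∀ X ∈ Wmin C n,
    (coef M 0 ⊗ₖ (1 : Matrix (Fin n) (Fin n) ℂ) + ∑ j : Fin d, coef M j.succ ⊗ₖ X j).PosSemidef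

/-- Unital completely positive maps from `𝒪(𝒲^min(C))` to a `C⋆`-algebra `A`. An element of the
`C⋆`-algebra `M_m(A)` is positive iff it is of the form `Yᴴ * Y`. -/
structure IsUCP {d : ℕ} (C : Set (Fin d → ℝ)) {A : Type*} [Ring A] [StarRing A] [Algebra ℂ A]
    (φ : (Fin (d + 1) → ℂ) →ₗ[ℂ] A) : Prop where
  unital : φ (Pi.single 0 1) = 1
  cp : ∀ m, ∀ M : Matrix (Fin m) (Fin m) (Fin (d + 1) → ℂ), OPos C M →
    ∃ Y : Matrix (Fin m) (Fin m) A, M.map φ = Yᴴ * Y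

/-- The lifting property of `𝒪(𝒲^min(C))`: every UCP map into a quotient `B` of a unital
`C⋆`-algebra `A` (i.e. `B` is the image of a surjective `⋆`-homomorphism `q : A → B`) has a UCP
lift to `A`. -/
def HasLiftingProperty {d : ℕ} (C : Set (Fin d → ℝ)) : Prop :=
  ∀ (A B : Type) [CStarAlgebra A] [CStarAlgebra B] (q : A →⋆ₐ[ℂ] B), Function.Surjective q →
    ∀ φ : (Fin (d + 1) → ℂ) →ₗ[ℂ] B, IsUCP C φ →
      ∃ ψ : (Fin (d + 1) → ℂ) →ₗ[ℂ] A, IsUCP C ψ ∧ ∀ s, q (ψ s) = φ s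

/-- The closed Euclidean unit ball of `ℝ^d`. -/
def ball (d : ℕ) : Set (Fin d → ℝ) := {x | ∑ j, x j ^ 2 ≤ 1}

/-- The minimal operator system structure `OMIN(M_n)` on the ordered space `M_n` (Paulsen,
Todorov, Tomforde): a matrix with entries in `M_n` is positive iff all its images under (vector)
states of `M_n` are positive semidefinite. -/
def MinPos {n m : ℕ} (M : Matrix (Fin m) (Fin m) (Matrix (Fin n) (Fin n) ℂ)) : Prop :=
  ∀ v : Fin n → ℂ, (M.map (fun a => star v ⬝ᵥ (a *ᵥ v))).PosSemidef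

/-- Unital completely positive maps from `OMIN(M_n)` to a `C⋆`-algebra `A`. -/
structure IsMinUCP {n : ℕ} {A : Type*} [Ring A] [StarRing A] [Algebra ℂ A]
    (φ : Matrix (Fin n) (Fin n) ℂ →ₗ[ℂ] A) : Prop where
  unital : φ 1 = 1
  cp : ∀ m, ∀ M : Matrix (Fin m) (Fin m) (Matrix (Fin n) (Fin n) ℂ), MinPos M →
    ∃ Y : Matrix (Fin m) (Fin m) A, M.map φ = Yᴴ * Y

/-- The lifting property of `OMIN(M_n)`. -/
def MinHasLiftingProperty (n : ℕ) : Prop :=
  ∀ (A B : Type) [CStarAlgebra A] [CStarAlgebra B] (q : A →⋆ₐ[ℂ] B), Function.Surjective q →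
    ∀ φ : Matrix (Fin n) (Fin n) ℂ →ₗ[ℂ] B, IsMinUCP φ →
      ∃ ψ : Matrix (Fin n) (Fin n) ℂ →ₗ[ℂ] A, IsMinUCP ψ ∧ ∀ a, q (ψ a) = φ a

end H62.LPD
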