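import Pool.Agent.H62.LPD.Transfer

set_option autoImplicit false

open Matrix Complex
open scoped Kronecker ComplexOrder

namespace H62.LPD

variable {d : ℕ}

/-- the largest matrix convex set with first level `C` -/
def Kmax (C : Set (Fin d → ℝ)) : MatSeq d := fun n => {Y | (∀ j, (Y j).IsHermitian) ∧
  ∀ (c0 : ℝ) (c : Fin d → ℝ), (∀ x ∈ C, 0 ≤ c0 + ∑ j, c j * x j) →
    ((c0 : ℂ) • (1 : Matrix (Fin n) (Fin n) ℂ) + ∑ j, (c j : ℂ) • Y j).PosSemidef}

/-- scalar affine function at a tuple, as a special case of `affM` -/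
lemma scal_eq (c0 : ℝ) (c : Fin d → ℝ) {n : ℕ} (Y : Fin d → Matrix (Fin n) (Fin n) ℂ) :
    (c0 : ℂ) • (1 : Matrix (Fin n) (Fin n) ℂ) + ∑ j, (c j : ℂ) • Y j =
      affM (fun _ : Fin 1 => c0) (fun _ j => c j) Y 0 := rfl

lemma Kmax_convex (C : Set (Fin d → ℝ)) : IsMatrixConvex (Kmax C) where
  hermitian n X hX j := hX.1 j
  directSum m n X hX Y hY := by
    refine ⟨fun j => ?_, fun c0 c h => ?_⟩
    · change (Matrix.reindex finSumFinEquiv finSumFinEquiv
        (Matrix.fromBlocks (X j) 0 0 (Y j))).IsHermitian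
      have h1 := hX.1 j
      have h2 := hY.1 j
      rw [H93.LP3.block_eq]
      exact (isHermitian_conjTranspose_mul_mul _ h1).add (isHermitian_conjTranspose_mul_mul _ h2)
    · rw [scal_eq, affM_directSum]
      have h1 := hX.2 c0 c h
      have h2 := hY.2 c0 c h
      rw [scal_eq] at h1 h2
      change (Matrix.reindex finSumFinEquiv finSumFinEquiv (Matrix.fromBlocks _ 0 0 _)).PosSemidef
      rw [H93.LP3.block_eq]
      exact (h1.conjTranspose_mul_mul_same _).add (h2.conjTranspose_mul_mul_same _)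
  compress m n V hV X hX := by
    refine ⟨fun j => isHermitian_conjTranspose_mul_mul _ (hX.1 j), fun c0 c h => ?_⟩
    rw [scal_eq, affM_compress _ _ _ V hV]
    have h1 := hX.2 c0 c h
    rw [scal_eq] at h1
    exact h1.conjTranspose_mul_mul_same _

lemma Kmax_closed (C : Set (Fin d → ℝ)) (n : ℕ) : IsClosed (Kmax C n) := by
  have h1 : IsClosed {Y : Fin d → Matrix (Fin n) (Fin n) ℂ | ∀ j, (Y j).IsHermitian} := by
    rw [Set.ofPred_forall]
    refine isClosed_iInter fun j => ?_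
    exact isClosed_eq (by fun_prop) (by fun_prop)
  have h2 : IsClosed {Y : Fin d → Matrix (Fin n) (Fin n) ℂ | ∀ (c0 : ℝ) (c : Fin d → ℝ),
      (∀ x ∈ C, 0 ≤ c0 + ∑ j, c j * x j) →
      ((c0 : ℂ) • (1 : Matrix (Fin n) (Fin n) ℂ) + ∑ j, (c j : ℂ) • Y j).PosSemidef} := by
    simp only [Set.ofPred_forall]
    refine isClosed_iInter fun c0 => isClosed_iInter fun c => isClosed_iInter fun _ => ?_
    exact H93.LP3.isClosed_posSemidef.preimage (by fun_prop)
  exact h1.inter h2

lemma psd_one_iff (r : ℝ) : ((Matrix.of fun _ _ => (r : ℂ)) : Matrix (Fin 1) (Fin 1) ℂ).PosSemidef ↔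
    0 ≤ r := by
  constructor
  · intro h
    have := h.diag_nonneg (i := 0)
    simpa using this
  · intro h
    refine PosSemidef.of_dotProduct_mulVec_nonneg ?_ ?_
    · ext i j
      simp
    · intro x
      simp only [dotProduct, mulVec, Fin.sum_univ_one, Pi.star_apply, of_apply]
      have : star (x 0) * ((r : ℂ) * x 0) = (r * Complex.normSq (x 0) : ℝ) := by
        rw [Complex.ofReal_mul, Complex.normSq_eq_conj_mul_self]
        simp only [RCLike.star_def]
        ring
      rw [this]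
      exact Complex.zero_le_real.2 (mul_nonneg h (Complex.normSq_nonneg _))

lemma scal_lev (c0 : ℝ) (c : Fin d → ℝ) (x : Fin d → ℝ) :
    (c0 : ℂ) • (1 : Matrix (Fin 1) (Fin 1) ℂ) + ∑ j, (c j : ℂ) • lev x j =
      (Matrix.of fun _ _ => ((c0 + ∑ j, c j * x j : ℝ) : ℂ) : Matrix (Fin 1) (Fin 1) ℂ) := by
  ext a b
  have hab : a = b := Subsingleton.elim _ _
  subst hab
  simp [lev, Matrix.sum_apply]

lemma Kmax_level {C : Set (Fin d → ℝ)} (hC : IsClosed C) (hc : Convex ℝ C) :
    FirstLevelIs C (Kmax C) := by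
  intro x
  change lev x ∈ Kmax C 1 ↔ x ∈ C
  constructor
  · rintro ⟨-, h⟩
    by_contra hx
    obtain ⟨f, u, hfu, hux⟩ := geometric_hahn_banach_closed_point hc hC hx
    have hf : ∀ y : Fin d → ℝ, f y = ∑ j, f (Pi.single j 1) * y j := by
      intro y
      conv_lhs => rw [pi_eq_sum_univ' y]
      rw [map_sum]
      refine Finset.sum_congr rfl fun j _ => ?_
      rw [map_smul, smul_eq_mul, mul_comm]
    have h1 := h u (fun j => - f (Pi.single j 1)) (fun y hy => by
      have := hfu y hy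
      rw [hf y] at this
      simp only [neg_mul, Finset.sum_neg_distrib]
      linarith)
    rw [scal_lev, psd_one_iff] at h1
    simp only [neg_mul, Finset.sum_neg_distrib] at h1
    rw [← hf x] at h1
    linarith
  · intro hx
    refine ⟨fun j => ?_, fun c0 c h => ?_⟩
    · ext a b
      simp [lev]
    · rw [scal_lev, psd_one_iff]
      exact h x hx

lemma good_exists {C : Set (Fin d → ℝ)} (hC : IsClosed C) (hc : Convex ℝ C) :
    ∃ K : MatSeq d, Good C K :=
  ⟨Kmax C, Kmax_convex C, Kmax_closed C, Kmax_level hC hc⟩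

/-- every affine map between coordinate spaces has the form `affR c L` -/
lemma affR_of_affine {e : ℕ} (a : (Fin e → ℝ) →ᵃ[ℝ] (Fin d → ℝ)) :
    ∃ (c : Fin d → ℝ) (L : Fin d → Fin e → ℝ), ∀ x, affR c L x = a x := by
  refine ⟨a 0, fun j i => a.linear (Pi.single i 1) j, fun x => ?_⟩
  funext j
  have h1 : a x = a.linear x + a 0 := by
    have := a.map_vadd 0 x
    simpa using this
  have h2 : a.linear x = ∑ i, x i • a.linear (Pi.single i 1) := by
    conv_lhs => rw [pi_eq_sum_univ' x]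
    rw [map_sum]
    refine Finset.sum_congr rfl fun i _ => ?_
    rw [map_smul]
  rw [h1, h2]
  simp only [affR, Pi.add_apply, Finset.sum_apply, Pi.smul_apply, smul_eq_mul]
  rw [add_comm]
  congr 1
  exact Finset.sum_congr rfl fun i _ => by ring

/-- the lifting property of `𝒪(𝒲^min(C))` passes to affine retracts of `C` -/
theorem lifting_of_retract {e : ℕ} {C : Set (Fin d → ℝ)} {D : Set (Fin e → ℝ)}
    (hC : IsClosed C) (hc : Convex ℝ C) (hD : IsClosed D) (hd : Convex ℝ D)
    (a : (Fin e → ℝ) →ᵃ[ℝ] (Fin d → ℝ)) (b : (Fin d → ℝ) →ᵃ[ℝ] (Fin e → ℝ))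
    (ha : ∀ x ∈ D, a x ∈ C) (hb : ∀ x ∈ C, b x ∈ D) (hab : ∀ x, b (a x) = x)
    (hLP : HasLiftingProperty C) : HasLiftingProperty D := by
  obtain ⟨ca, La, h1⟩ := affR_of_affine a
  obtain ⟨cb, Lb, h2⟩ := affR_of_affine b
  refine lifting_of_retract' (good_exists hC hc) (good_exists hD hd) ca La cb Lb ?_ ?_ ?_ hLP
  · intro x hx
    rw [h1]
    exact ha x hx
  · intro x hx
    rw [h2]
    exact hb x hx
  · intro x
    rw [h1, h2, hab]

lemma ball_closed (d : ℕ) : IsClosed (ball d) :=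
  isClosed_le (by fun_prop) continuous_const

lemma ball_convex (d : ℕ) : Convex ℝ (ball d) := by
  intro x hx y hy s t hs ht hst
  change ∑ j, (s • x + t • y) j ^ 2 ≤ 1
  have hx' : ∑ j, x j ^ 2 ≤ 1 := hx
  have hy' : ∑ j, y j ^ 2 ≤ 1 := hy
  have h : ∀ j, (s • x + t • y) j ^ 2 ≤ s * x j ^ 2 + t * y j ^ 2 := by
    intro j
    simp only [Pi.add_apply, Pi.smul_apply, smul_eq_mul]
    have ht' : t = 1 - s := by linarith
    subst ht'
    nlinarith [mul_nonneg hs ht, sq_nonneg (x j - y j), mul_nonneg (mul_nonneg hs ht) (sq_nonneg (x j - y j))]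
  calc ∑ j, (s • x + t • y) j ^ 2 ≤ ∑ j, (s * x j ^ 2 + t * y j ^ 2) := Finset.sum_le_sum fun j _ => h j
    _ = s * ∑ j, x j ^ 2 + t * ∑ j, y j ^ 2 := by
      rw [Finset.sum_add_distrib, Finset.mul_sum, Finset.mul_sum]
    _ ≤ s * 1 + t * 1 := by gcongr
    _ = 1 := by rw [mul_one, mul_one, hst]

end H62.LPD
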