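import Pool.Agent.H62.LPD.Exists
import Pool.Agent.H93.LP3.Final

set_option autoImplicit false

open Matrix Complex
open scoped Kronecker ComplexOrder

namespace H62.LPD

/-! ### The case `d = 3` of the ball -/

lemma conv_iff (K : MatSeq 3) : IsMatrixConvex K ↔ H93.LP3.IsMatrixConvex K :=
  ⟨fun h => ⟨h.hermitian, h.directSum, h.compress⟩, fun h => ⟨h.hermitian, h.directSum, h.compress⟩⟩

lemma Wmin_iff (n : ℕ) (X : Fin 3 → Matrix (Fin n) (Fin n) ℂ) :
    X ∈ Wmin (ball 3) n ↔ X ∈ H93.LP3.Wmin n := by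
  constructor
  · intro h K hK hcl hlev
    exact h K ((conv_iff K).2 hK) hcl hlev
  · intro h K hK hcl hlev
    exact h K ((conv_iff K).1 hK) hcl hlev

lemma OPos_iff {m : ℕ} (M : Matrix (Fin m) (Fin m) (Fin 4 → ℂ)) :
    OPos (d := 3) (ball 3) M ↔ H93.LP3.OPos M := by
  constructor
  · intro h n X hX
    exact h n X ((Wmin_iff n X).2 hX)
  · intro h n X hX
    exact h n X ((Wmin_iff n X).1 hX)

lemma ucp_iff {A : Type*} [Ring A] [StarRing A] [Algebra ℂ A] (φ : (Fin 4 → ℂ) →ₗ[ℂ] A) :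
    IsUCP (d := 3) (ball 3) φ ↔ H93.LP3.IsUCP φ :=
  ⟨fun h => ⟨h.unital, fun m M hM => h.cp m M ((OPos_iff M).2 hM)⟩,
    fun h => ⟨h.unital, fun m M hM => h.cp m M ((OPos_iff M).1 hM)⟩⟩

lemma lifting_iff : HasLiftingProperty (ball 3) ↔ H93.LP3.HasLiftingProperty := by
  constructor
  · intro h A B _ _ q hq φ hφ
    obtain ⟨ψ, h1, h2⟩ := h A B q hq φ ((ucp_iff φ).2 hφ)
    exact ⟨ψ, (ucp_iff ψ).1 h1, h2⟩
  · intro h A B _ _ q hq φ hφ
    obtain ⟨ψ, h1, h2⟩ := h A B q hq φ ((ucp_iff φ).1 hφ)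
    exact ⟨ψ, (ucp_iff ψ).2 h1, h2⟩

/-- no lifting property for a set which has the ball of `ℝ³` as an affine retract -/
theorem not_lifting_of_retract {d : ℕ} {C : Set (Fin d → ℝ)} (hC : IsClosed C) (hc : Convex ℝ C)
    (a : (Fin 3 → ℝ) →ᵃ[ℝ] (Fin d → ℝ)) (b : (Fin d → ℝ) →ᵃ[ℝ] (Fin 3 → ℝ))
    (ha : ∀ x ∈ ball 3, a x ∈ C) (hb : ∀ x ∈ C, b x ∈ ball 3) (hab : ∀ x, b (a x) = x) :
    ¬ HasLiftingProperty C := fun h => H93.LP3.no_lifting (lifting_iff.1
      (lifting_of_retract hC hc (ball_closed 3) (ball_convex 3) a b ha hb hab h))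

/-! ### Balls -/

lemma not_lifting_ball {d : ℕ} (hd : 3 ≤ d) : ¬ HasLiftingProperty (ball d) := by
  obtain ⟨k, rfl⟩ := Nat.exists_eq_add_of_le hd
  refine not_lifting_of_retract (ball_closed _) (ball_convex _)
    (LinearMap.toAffineMap
      { toFun := fun x => Fin.append x (0 : Fin k → ℝ)
        map_add' := ?_
        map_smul' := ?_ })
    (LinearMap.toAffineMap
      { toFun := fun y i => y (Fin.castAdd k i)
        map_add' := fun _ _ => rfl
        map_smul' := fun _ _ => rfl }) ?_ ?_ ?_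
  · intro x y
    funext j
    refine Fin.addCases (fun i => ?_) (fun i => ?_) j
    · simp
    · simp
  · intro r x
    funext j
    refine Fin.addCases (fun i => ?_) (fun i => ?_) j
    · simp
    · simp
  · intro x hx
    change ∑ j, (Fin.append x (0 : Fin k → ℝ) j) ^ 2 ≤ 1
    rw [Fin.sum_univ_add]
    have hx' : ∑ j, x j ^ 2 ≤ 1 := hx
    simpa using hx'
  · intro y hy
    have hy' : ∑ j, y j ^ 2 ≤ 1 := hy
    rw [Fin.sum_univ_add] at hy'
    change ∑ i : Fin 3, y (Fin.castAdd k i) ^ 2 ≤ 1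
    have : 0 ≤ ∑ i : Fin k, y (Fin.natAdd 3 i) ^ 2 := Finset.sum_nonneg fun i _ => sq_nonneg _
    linarith
  · intro x
    funext i
    change Fin.append x (0 : Fin k → ℝ) (Fin.castAdd k i) = x i
    simp

/-! ### `OMIN(M_n)` -/

/-- Pauli coordinates of the upper left `2 × 2` corner -/
noncomputable def corner (k : ℕ) : Matrix (Fin (2 + k)) (Fin (2 + k)) ℂ →ₗ[ℂ] (Fin 4 → ℂ) where
  toFun a := ![(a (Fin.castAdd k 0) (Fin.castAdd k 0) + a (Fin.castAdd k 1) (Fin.castAdd k 1)) / 2,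
    (a (Fin.castAdd k 0) (Fin.castAdd k 1) + a (Fin.castAdd k 1) (Fin.castAdd k 0)) / 2,
    I * (a (Fin.castAdd k 0) (Fin.castAdd k 1) - a (Fin.castAdd k 1) (Fin.castAdd k 0)) / 2,
    (a (Fin.castAdd k 0) (Fin.castAdd k 0) - a (Fin.castAdd k 1) (Fin.castAdd k 1)) / 2]
  map_add' a b := by
    funext j
    fin_cases j <;> simp <;> ring
  map_smul' r a := by
    funext j
    fin_cases j <;> simp <;> ring

/-- the `2 × 2` matrix with given Pauli coordinates -/
noncomputable def pm (s : Fin 4 → ℂ) : Matrix (Fin 2) (Fin 2) ℂ :=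
  !![s 0 + s 3, s 1 - I * s 2; s 1 + I * s 2, s 0 - s 3]

lemma pm_add (s t : Fin 4 → ℂ) : pm (s + t) = pm s + pm t := by
  ext i j
  fin_cases i <;> fin_cases j <;> simp [pm] <;> ring

lemma pm_smul (r : ℂ) (s : Fin 4 → ℂ) : pm (r • s) = r • pm s := by
  ext i j
  fin_cases i <;> fin_cases j <;> simp [pm] <;> ring

/-- the `2 × 2` matrix of an element of the span of the Pauli matrices, completed by `s₀` -/
noncomputable def extd (k : ℕ) : (Fin 4 → ℂ) →ₗ[ℂ] Matrix (Fin (2 + k)) (Fin (2 + k)) ℂ where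
  toFun s := Matrix.reindex finSumFinEquiv finSumFinEquiv
    (Matrix.fromBlocks (pm s) 0 0 (s 0 • (1 : Matrix (Fin k) (Fin k) ℂ)))
  map_add' s t := by
    have h : Matrix.fromBlocks (pm (s + t)) 0 0 ((s + t) 0 • (1 : Matrix (Fin k) (Fin k) ℂ)) =
        Matrix.fromBlocks (pm s) 0 0 (s 0 • (1 : Matrix (Fin k) (Fin k) ℂ)) +
        Matrix.fromBlocks (pm t) 0 0 (t 0 • (1 : Matrix (Fin k) (Fin k) ℂ)) := by
      rw [Matrix.fromBlocks_add, pm_add, Pi.add_apply, add_smul, add_zero, add_zero]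
    rw [h]
    rfl
  map_smul' r s := by
    have h : Matrix.fromBlocks (pm (r • s)) 0 0 ((r • s) 0 • (1 : Matrix (Fin k) (Fin k) ℂ)) =
        r • Matrix.fromBlocks (pm s) 0 0 (s 0 • (1 : Matrix (Fin k) (Fin k) ℂ)) := by
      rw [Matrix.fromBlocks_smul, pm_smul, Pi.smul_apply, smul_eq_mul, mul_smul, smul_zero, smul_zero]
    rw [h]
    rfl

lemma extd_ll (k : ℕ) (s : Fin 4 → ℂ) (i j : Fin 2) :
    extd k s (Fin.castAdd k i) (Fin.castAdd k j) = pm s i j := by
  change (Matrix.fromBlocks (pm s) 0 0 (s 0 • (1 : Matrix (Fin k) (Fin k) ℂ)))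
    (finSumFinEquiv.symm (Fin.castAdd k i)) (finSumFinEquiv.symm (Fin.castAdd k j)) = _
  rw [finSumFinEquiv_symm_apply_castAdd, finSumFinEquiv_symm_apply_castAdd]
  rfl

lemma extd_lr (k : ℕ) (s : Fin 4 → ℂ) (i : Fin 2) (j : Fin k) :
    extd k s (Fin.castAdd k i) (Fin.natAdd 2 j) = 0 := by
  change (Matrix.fromBlocks (pm s) 0 0 (s 0 • (1 : Matrix (Fin k) (Fin k) ℂ)))
    (finSumFinEquiv.symm (Fin.castAdd k i)) (finSumFinEquiv.symm (Fin.natAdd 2 j)) = _
  rw [finSumFinEquiv_symm_apply_castAdd, finSumFinEquiv_symm_apply_natAdd]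
  rfl

lemma extd_rl (k : ℕ) (s : Fin 4 → ℂ) (i : Fin k) (j : Fin 2) :
    extd k s (Fin.natAdd 2 i) (Fin.castAdd k j) = 0 := by
  change (Matrix.fromBlocks (pm s) 0 0 (s 0 • (1 : Matrix (Fin k) (Fin k) ℂ)))
    (finSumFinEquiv.symm (Fin.natAdd 2 i)) (finSumFinEquiv.symm (Fin.castAdd k j)) = _
  rw [finSumFinEquiv_symm_apply_castAdd, finSumFinEquiv_symm_apply_natAdd]
  rfl

lemma extd_rr (k : ℕ) (s : Fin 4 → ℂ) (i j : Fin k) :
    extd k s (Fin.natAdd 2 i) (Fin.natAdd 2 j) = if i = j then s 0 else 0 := by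
  change (Matrix.fromBlocks (pm s) 0 0 (s 0 • (1 : Matrix (Fin k) (Fin k) ℂ)))
    (finSumFinEquiv.symm (Fin.natAdd 2 i)) (finSumFinEquiv.symm (Fin.natAdd 2 j)) = _
  rw [finSumFinEquiv_symm_apply_natAdd, finSumFinEquiv_symm_apply_natAdd]
  simp [Matrix.one_apply]

lemma corner_extd (k : ℕ) (s : Fin 4 → ℂ) : corner k (extd k s) = s := by
  funext j
  fin_cases j
  · simp [corner, extd_ll, pm]
  · simp [corner, extd_ll, pm]
  · simp only [corner, LinearMap.coe_mk, AddHom.coe_mk, extd_ll, pm]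
    simp only [of_apply, cons_val', cons_val_zero, cons_val_one, cons_val_fin_one]
    simp
    linear_combination (- s 2) * I_mul_I
  · simp [corner, extd_ll, pm]

lemma corner_one (k : ℕ) : corner k 1 = Pi.single 0 1 := by
  funext j
  fin_cases j <;> simp [corner, Matrix.one_apply]

lemma extd_one (k : ℕ) : extd k (Pi.single 0 1) = 1 := by
  ext i j
  refine Fin.addCases (fun i => ?_) (fun i => ?_) i <;> refine Fin.addCases (fun j => ?_) (fun j => ?_) j
  · rw [extd_ll]
    fin_cases i <;> fin_cases j <;> simp [pm, Matrix.one_apply]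
  · rw [extd_lr, Matrix.one_apply_ne]
    intro h
    have := congrArg Fin.val h
    simp at this
    omega
  · rw [extd_rl, Matrix.one_apply_ne]
    intro h
    have := congrArg Fin.val h
    simp at this
    omega
  · rw [extd_rr, Matrix.one_apply]
    simp

/-- quadratic form of `extd` -/
lemma quad_extd (k : ℕ) (s : Fin 4 → ℂ) (v : Fin (2 + k) → ℂ) :
    star v ⬝ᵥ (extd k s *ᵥ v) =
      (∑ i : Fin 2, ∑ j : Fin 2, star (v (Fin.castAdd k i)) * pm s i j * v (Fin.castAdd k j)) +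
      s 0 * ∑ i : Fin k, star (v (Fin.natAdd 2 i)) * v (Fin.natAdd 2 i) := by
  simp only [dotProduct, mulVec, Fin.sum_univ_add (a := 2) (b := k), extd_ll, extd_lr, extd_rl, extd_rr,
    zero_mul, Finset.sum_const_zero, add_zero, zero_add, Pi.star_apply, Finset.mul_sum]
  congr 1
  · refine Finset.sum_congr rfl fun i _ => Finset.sum_congr rfl fun j _ => ?_
    ring
  · refine Finset.sum_congr rfl fun i _ => ?_
    rw [Finset.sum_eq_single i]
    · rw [if_pos rfl]
      ring
    · intro j _ hj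
      rw [if_neg (Ne.symm hj)]
      ring
    · simp

open H93.LP3 in
/-- block positivity on `M_n` gives positivity of the Pauli coordinates of the corner -/
lemma corner_pos (k : ℕ) {m : ℕ} {M : Matrix (Fin m) (Fin m) (Matrix (Fin (2 + k)) (Fin (2 + k)) ℂ)}
    (hM : MinPos M) : H93.LP3.OPos (M.map (corner k)) := by
  rw [OPos_iff_zPos]
  intro z
  have h := hM (Fin.append ![1, z] (0 : Fin k → ℂ))
  have e : zVal (M.map (corner k)) z = M.map (fun a => star (Fin.append ![1, z] (0 : Fin k → ℂ)) ⬝ᵥ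
      (a *ᵥ Fin.append ![1, z] (0 : Fin k → ℂ))) := by
    ext i j
    simp only [zVal, H93.LP3.coef, Matrix.add_apply, Matrix.sub_apply, Matrix.smul_apply,
      Matrix.map_apply, smul_eq_mul, dotProduct, mulVec, Fin.sum_univ_add (a := 2) (b := k),
      Pi.star_apply, Fin.append_left, Fin.append_right, Pi.zero_apply, star_zero, zero_mul, mul_zero,
      Finset.sum_const_zero, add_zero, Fin.sum_univ_two, cons_val_zero, cons_val_one, star_one,
      one_mul, mul_one, corner, LinearMap.coe_mk, AddHom.coe_mk, RCLike.star_def, cons_val_fin_one]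
    simp
    linear_combination (1 / 2 * (-(z * M i j (Fin.castAdd k 0) (Fin.castAdd k 1)) +
      z * M i j (Fin.castAdd k 1) (Fin.castAdd k 0) +
      (starRingEnd ℂ z) * M i j (Fin.castAdd k 0) (Fin.castAdd k 1) -
      (starRingEnd ℂ z) * M i j (Fin.castAdd k 1) (Fin.castAdd k 0))) * I_mul_I
  rw [e]
  exact h

open H93.LP3 in
lemma coef0_psd {m : ℕ} {M : Matrix (Fin m) (Fin m) (Fin 4 → ℂ)} (h : BallPos M) :
    (H93.LP3.coef M 0).PosSemidef := by
  have := h 0 (by simp)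
  simpa [ballVal] using this

open H93.LP3 in
lemma coef03_psd {m : ℕ} {M : Matrix (Fin m) (Fin m) (Fin 4 → ℂ)} (h : BallPos M) :
    (H93.LP3.coef M 0 - H93.LP3.coef M 3).PosSemidef := by
  have := h ![0, 0, -1] (by simp [Fin.sum_univ_three])
  rw [ballVal, Fin.sum_univ_three] at this
  have e : H93.LP3.coef M 0 - H93.LP3.coef M 3 = H93.LP3.coef M 0 +
    (((![0, 0, -1] : Fin 3 → ℝ) 0 : ℂ) • H93.LP3.coef M (Fin.succ 0) +
      ((![0, 0, -1] : Fin 3 → ℝ) 1 : ℂ) • H93.LP3.coef M (Fin.succ 1) +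
      ((![0, 0, -1] : Fin 3 → ℝ) 2 : ℂ) • H93.LP3.coef M (Fin.succ 2)) := by
    have e3 : (Fin.succ 2 : Fin 4) = 3 := rfl
    rw [e3]
    simp
    abel
  rw [e]
  exact this

lemma psd_smul {m : ℕ} {P : Matrix (Fin m) (Fin m) ℂ} (h : P.PosSemidef) (w : ℂ) :
    ((star w * w) • P).PosSemidef := by
  have e : star w * w = ((Complex.normSq w : ℝ) : ℂ) := by
    rw [Complex.normSq_eq_conj_mul_self]
    rfl
  rw [e]
  exact h.smul (Complex.zero_le_real.2 (Complex.normSq_nonneg w))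

open H93.LP3 in
/-- positivity of `extd` -/
lemma extd_pos (k : ℕ) {m : ℕ} {M : Matrix (Fin m) (Fin m) (Fin 4 → ℂ)} (hM : H93.LP3.OPos M) :
    MinPos (M.map (extd k)) := by
  have hB : BallPos M := (OPos_iff_ballPos M).1 hM
  have hZ : ZPos M := (OPos_iff_zPos M).1 hM
  intro v
  set x := v (Fin.castAdd k 0) with hx
  set y := v (Fin.castAdd k 1) with hy
  have key : (M.map (extd k)).map (fun a => star v ⬝ᵥ (a *ᵥ v)) =
      ((star x * x) • (H93.LP3.coef M 0 + H93.LP3.coef M 3) +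
        (star x * y) • (H93.LP3.coef M 1 - I • H93.LP3.coef M 2) +
        (star y * x) • (H93.LP3.coef M 1 + I • H93.LP3.coef M 2) +
        (star y * y) • (H93.LP3.coef M 0 - H93.LP3.coef M 3)) +
      ∑ i : Fin k, (star (v (Fin.natAdd 2 i)) * v (Fin.natAdd 2 i)) • H93.LP3.coef M 0 := by
    ext a b
    rw [Matrix.map_apply, Matrix.map_apply, quad_extd]
    simp only [Fin.sum_univ_two, pm, Matrix.add_apply, Matrix.sub_apply, Matrix.smul_apply,
      Matrix.sum_apply, H93.LP3.coef, Matrix.map_apply, smul_eq_mul, ← hx, ← hy]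
    simp only [of_apply, cons_val', cons_val_zero, cons_val_one, cons_val_fin_one]
    rw [← Finset.sum_mul]
    ring
  rw [key]
  refine PosSemidef.add ?_ (posSemidef_sum _ fun i _ => psd_smul (coef0_psd hB) _)
  by_cases h0 : x = 0
  · rw [h0]
    simp only [star_zero, mul_zero, zero_mul, zero_smul, zero_add]
    exact psd_smul (coef03_psd hB) _
  · have h1 := psd_smul (hZ (y / x)) x
    have e : (star x * x) • zVal M (y / x) =
      ((star x * x) • (H93.LP3.coef M 0 + H93.LP3.coef M 3) +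
        (star x * y) • (H93.LP3.coef M 1 - I • H93.LP3.coef M 2) +
        (star y * x) • (H93.LP3.coef M 1 + I • H93.LP3.coef M 2) +
        (star y * y) • (H93.LP3.coef M 0 - H93.LP3.coef M 3)) := by
      have hsx : (starRingEnd ℂ) x ≠ 0 := by
        intro h
        exact h0 ((map_eq_zero _).1 h)
      have s1 : star x * x * (y / x) = star x * y := by field_simp
      have s2 : star x * x * (starRingEnd ℂ) (y / x) = star y * x := by
        rw [map_div₀, RCLike.star_def]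
        field_simp
      have s3 : star x * x * (y / x * (starRingEnd ℂ) (y / x)) = star y * y := by
        rw [map_div₀, RCLike.star_def]
        field_simp
      unfold zVal
      rw [smul_add, smul_add, smul_add, smul_smul, smul_smul, smul_smul, s1, s2, s3]
    rw [← e]
    exact h1

/-- `OMIN(M_n)` does not have the lifting property, `n ≥ 2` -/
theorem not_min_lifting {n : ℕ} (hn : 2 ≤ n) : ¬ MinHasLiftingProperty n := by
  obtain ⟨k, rfl⟩ := Nat.exists_eq_add_of_le hn
  intro hLP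
  apply H93.LP3.no_lifting
  intro A B _ _ q hq φ hφ
  obtain ⟨Ψ, hΨ, hqΨ⟩ := hLP A B q hq (φ.comp (corner k))
    { unital := by
        rw [LinearMap.comp_apply, corner_one]
        exact hφ.unital
      cp := fun m M hM => by
        obtain ⟨Y, hY⟩ := hφ.cp m _ (corner_pos k hM)
        exact ⟨Y, by rw [← hY]; rfl⟩ }
  refine ⟨Ψ.comp (extd k),
    { unital := by
        rw [LinearMap.comp_apply, extd_one]
        exact hΨ.unital
      cp := fun m M hM => by
        obtain ⟨Y, hY⟩ := hΨ.cp m _ (extd_pos k hM)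
        exact ⟨Y, by rw [← hY]; rfl⟩ }, fun s => ?_⟩
  rw [LinearMap.comp_apply, hqΨ, LinearMap.comp_apply, corner_extd]

end H62.LPD
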