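import Pool.Agent.H62.LPD.Defs
import Pool.Agent.H93.LP3.Level1

set_option autoImplicit false

open Matrix Complex
open scoped Kronecker ComplexOrder

namespace H62.LPD

variable {d e : ℕ}

/-- the affine map `x ↦ c + L x` on tuples of matrices -/
def affM (c : Fin d → ℝ) (L : Fin d → Fin e → ℝ) {n : ℕ} (X : Fin e → Matrix (Fin n) (Fin n) ℂ) :
    Fin d → Matrix (Fin n) (Fin n) ℂ :=
  fun j => (c j : ℂ) • (1 : Matrix (Fin n) (Fin n) ℂ) + ∑ i, (L j i : ℂ) • X i

/-- the real affine map `x ↦ c + L x` -/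
def affR (c : Fin d → ℝ) (L : Fin d → Fin e → ℝ) (x : Fin e → ℝ) : Fin d → ℝ :=
  fun j => c j + ∑ i, L j i * x i

/-- level one embedding -/
def lev (x : Fin d → ℝ) : Fin d → Matrix (Fin 1) (Fin 1) ℂ :=
  fun j => (Matrix.of fun _ _ => (x j : ℂ) : Matrix (Fin 1) (Fin 1) ℂ)

lemma affM_lev (c : Fin d → ℝ) (L : Fin d → Fin e → ℝ) (x : Fin e → ℝ) :
    affM c L (lev x) = lev (affR c L x) := by
  funext j
  ext a b
  have hab : a = b := Subsingleton.elim _ _
  subst hab
  simp [affM, affR, lev, Matrix.sum_apply]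

lemma affM_conj (c : Fin d → ℝ) (L : Fin d → Fin e → ℝ) {m n : ℕ}
    (X : Fin e → Matrix (Fin n) (Fin n) ℂ) (V : Matrix (Fin n) (Fin m) ℂ) (j : Fin d) :
    Vᴴ * affM c L X j * V = (c j : ℂ) • (Vᴴ * V) + ∑ i, (L j i : ℂ) • (Vᴴ * X i * V) := by
  unfold affM
  rw [Matrix.mul_add, Matrix.add_mul, Matrix.mul_sum, Matrix.sum_mul]
  simp only [Matrix.mul_smul, Matrix.smul_mul, Matrix.mul_one]

lemma affM_compress (c : Fin d → ℝ) (L : Fin d → Fin e → ℝ) {m n : ℕ}
    (X : Fin e → Matrix (Fin n) (Fin n) ℂ) (V : Matrix (Fin n) (Fin m) ℂ) (hV : Vᴴ * V = 1) :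
    affM c L (fun i => Vᴴ * X i * V) = fun j => Vᴴ * affM c L X j * V := by
  funext j
  rw [affM_conj, hV]
  rfl

lemma affM_directSum (c : Fin d → ℝ) (L : Fin d → Fin e → ℝ) {m n : ℕ}
    (X : Fin e → Matrix (Fin m) (Fin m) ℂ) (Y : Fin e → Matrix (Fin n) (Fin n) ℂ) :
    affM c L (fun i => Matrix.reindex finSumFinEquiv finSumFinEquiv
      (Matrix.fromBlocks (X i) 0 0 (Y i))) = fun j => Matrix.reindex finSumFinEquiv finSumFinEquiv
      (Matrix.fromBlocks (affM c L X j) 0 0 (affM c L Y j)) := by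
  funext j
  rw [H93.LP3.block_eq, affM_conj, affM_conj]
  unfold affM
  simp only [H93.LP3.block_eq]
  rw [H93.LP3.block_one]
  simp only [smul_add, Finset.sum_add_distrib]
  abel

lemma affM_continuous (c : Fin d → ℝ) (L : Fin d → Fin e → ℝ) (n : ℕ) :
    Continuous (fun X : Fin e → Matrix (Fin n) (Fin n) ℂ => affM c L X) := by
  unfold affM
  fun_prop

/-- a closed matrix convex set with first level `C` -/
structure Good (C : Set (Fin d → ℝ)) (K : MatSeq d) : Prop where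
  conv : IsMatrixConvex K
  closed : ∀ m, IsClosed (K m)
  level : FirstLevelIs C K

lemma good_preimage {C : Set (Fin d → ℝ)} {D : Set (Fin e → ℝ)} {K : MatSeq d} {K' : MatSeq e}
    (hK : Good C K) (hK' : Good D K') (c : Fin d → ℝ) (L : Fin d → Fin e → ℝ)
    (h : ∀ x ∈ D, affR c L x ∈ C) :
    Good D (fun n => {X | X ∈ K' n ∧ affM c L X ∈ K n}) where
  conv :=
    { hermitian := fun n X hX j => hK'.conv.hermitian n X hX.1 j
      directSum := fun m n X hX Y hY => by
        refine ⟨hK'.conv.directSum m n X hX.1 Y hY.1, ?_⟩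
        rw [affM_directSum]
        exact hK.conv.directSum m n _ hX.2 _ hY.2
      compress := fun m n V hV X hX => by
        refine ⟨hK'.conv.compress m n V hV X hX.1, ?_⟩
        rw [affM_compress c L X V hV]
        exact hK.conv.compress m n V hV _ hX.2 }
  closed := fun m => (hK'.closed m).inter ((hK.closed m).preimage (affM_continuous c L m))
  level := fun x => by
    have h1 : lev x ∈ K' 1 ↔ x ∈ D := hK'.level x
    have h2 : lev (affR c L x) ∈ K 1 ↔ affR c L x ∈ C := hK.level _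
    have h3 : affM c L (lev x) ∈ K 1 ↔ affR c L x ∈ C := by rw [affM_lev]; exact h2
    constructor
    · rintro ⟨hx, -⟩
      exact h1.1 hx
    · intro hx
      exact ⟨h1.2 hx, h3.2 (h x hx)⟩

lemma affM_mem_Wmin {C : Set (Fin d → ℝ)} {D : Set (Fin e → ℝ)}
    (hD : ∃ K' : MatSeq e, Good D K') (c : Fin d → ℝ) (L : Fin d → Fin e → ℝ)
    (h : ∀ x ∈ D, affR c L x ∈ C) {n : ℕ} {X : Fin e → Matrix (Fin n) (Fin n) ℂ}
    (hX : X ∈ Wmin D n) : affM c L X ∈ Wmin C n := by
  obtain ⟨K', hK'⟩ := hD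
  intro K hK hcl hlev
  have hg := good_preimage ⟨hK, hcl, hlev⟩ hK' c L h
  exact (hX _ hg.conv hg.closed hg.level).2

/-- pull back of affine functions -/
def pull (c : Fin d → ℝ) (L : Fin d → Fin e → ℝ) : (Fin (d + 1) → ℂ) →ₗ[ℂ] (Fin (e + 1) → ℂ) where
  toFun s := Fin.cons (s 0 + ∑ j, (c j : ℂ) * s j.succ) (fun i => ∑ j, (L j i : ℂ) * s j.succ)
  map_add' s t := by
    funext k
    refine Fin.cases ?_ (fun i => ?_) k
    · simp only [Pi.add_apply, Fin.cons_zero, mul_add, Finset.sum_add_distrib]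
      ring
    · simp only [Pi.add_apply, Fin.cons_succ, mul_add, Finset.sum_add_distrib]
  map_smul' r s := by
    funext k
    refine Fin.cases ?_ (fun i => ?_) k
    · simp only [Pi.smul_apply, Fin.cons_zero, smul_eq_mul, RingHom.id_apply, mul_add, Finset.mul_sum]
      congr 1
      exact Finset.sum_congr rfl fun j _ => by ring
    · simp only [Pi.smul_apply, Fin.cons_succ, smul_eq_mul, RingHom.id_apply, Finset.mul_sum]
      exact Finset.sum_congr rfl fun j _ => by ring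

lemma pull_zero (c : Fin d → ℝ) (L : Fin d → Fin e → ℝ) (s : Fin (d + 1) → ℂ) :
    pull c L s 0 = s 0 + ∑ j, (c j : ℂ) * s j.succ := rfl

lemma pull_succ (c : Fin d → ℝ) (L : Fin d → Fin e → ℝ) (s : Fin (d + 1) → ℂ) (i : Fin e) :
    pull c L s i.succ = ∑ j, (L j i : ℂ) * s j.succ := rfl

lemma pull_one (c : Fin d → ℝ) (L : Fin d → Fin e → ℝ) :
    pull c L (Pi.single 0 1) = Pi.single 0 1 := by
  funext k
  refine Fin.cases ?_ (fun i => ?_) k
  · rw [pull_zero]
    simp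
  · rw [pull_succ]
    simp

lemma coef_pull_zero (c : Fin d → ℝ) (L : Fin d → Fin e → ℝ) {m : ℕ}
    (M : Matrix (Fin m) (Fin m) (Fin (d + 1) → ℂ)) :
    coef (M.map (pull c L)) 0 = coef M 0 + ∑ j : Fin d, (c j : ℂ) • coef M j.succ := by
  ext a b
  simp [coef, pull_zero, Matrix.sum_apply]

lemma coef_pull_succ (c : Fin d → ℝ) (L : Fin d → Fin e → ℝ) {m : ℕ}
    (M : Matrix (Fin m) (Fin m) (Fin (d + 1) → ℂ)) (i : Fin e) :
    coef (M.map (pull c L)) i.succ = ∑ j : Fin d, (L j i : ℂ) • coef M j.succ := by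
  ext a b
  simp [coef, pull_succ, Matrix.sum_apply]

lemma pencil_pull (c : Fin d → ℝ) (L : Fin d → Fin e → ℝ) {m n : ℕ}
    (M : Matrix (Fin m) (Fin m) (Fin (d + 1) → ℂ)) (X : Fin e → Matrix (Fin n) (Fin n) ℂ) :
    coef (M.map (pull c L)) 0 ⊗ₖ (1 : Matrix (Fin n) (Fin n) ℂ) +
      ∑ i : Fin e, coef (M.map (pull c L)) i.succ ⊗ₖ X i =
    coef M 0 ⊗ₖ (1 : Matrix (Fin n) (Fin n) ℂ) + ∑ j : Fin d, coef M j.succ ⊗ₖ affM c L X j := by
  rw [coef_pull_zero]
  simp only [coef_pull_succ]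
  ext ⟨a, a'⟩ ⟨b, b'⟩
  simp only [affM, Matrix.add_apply, kroneckerMap_apply, Matrix.sum_apply, Matrix.smul_apply,
    smul_eq_mul, Finset.sum_mul, mul_add, add_mul, Finset.mul_sum, Finset.sum_add_distrib]
  rw [Finset.sum_comm, add_assoc]
  congr 1
  congr 1
  · exact Finset.sum_congr rfl fun j _ => by ring
  · exact Finset.sum_congr rfl fun j _ => Finset.sum_congr rfl fun i _ => by ring

lemma OPos_pull {C : Set (Fin d → ℝ)} {D : Set (Fin e → ℝ)}
    (hD : ∃ K' : MatSeq e, Good D K') (c : Fin d → ℝ) (L : Fin d → Fin e → ℝ)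
    (h : ∀ x ∈ D, affR c L x ∈ C) {m : ℕ} {M : Matrix (Fin m) (Fin m) (Fin (d + 1) → ℂ)}
    (hM : OPos C M) : OPos D (M.map (pull c L)) := by
  intro n X hX
  rw [pencil_pull]
  exact hM n _ (affM_mem_Wmin hD c L h hX)

lemma ucp_pull {C : Set (Fin d → ℝ)} {D : Set (Fin e → ℝ)}
    (hD : ∃ K' : MatSeq e, Good D K') (c : Fin d → ℝ) (L : Fin d → Fin e → ℝ)
    (h : ∀ x ∈ D, affR c L x ∈ C) {A : Type*} [Ring A] [StarRing A] [Algebra ℂ A]
    {φ : (Fin (e + 1) → ℂ) →ₗ[ℂ] A} (hφ : IsUCP D φ) : IsUCP C (φ.comp (pull c L)) where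
  unital := by
    rw [LinearMap.comp_apply, pull_one]
    exact hφ.unital
  cp m M hM := by
    obtain ⟨Y, hY⟩ := hφ.cp m _ (OPos_pull hD c L h hM)
    refine ⟨Y, ?_⟩
    rw [← hY]
    rfl

lemma pull_pull (ca : Fin d → ℝ) (La : Fin d → Fin e → ℝ) (cb : Fin e → ℝ) (Lb : Fin e → Fin d → ℝ)
    (h : ∀ x, affR cb Lb (affR ca La x) = x) (s : Fin (e + 1) → ℂ) :
    pull ca La (pull cb Lb s) = s := by
  have h0 : ∀ i, cb i + ∑ j, Lb i j * ca j = 0 := by
    intro i
    have := congrFun (h 0) i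
    simpa [affR] using this
  have h1 : ∀ i k, ∑ j, Lb i j * La j k = if i = k then 1 else 0 := by
    intro i k
    have := congrFun (h (Pi.single k 1)) i
    simp only [affR, mul_add, Finset.sum_add_distrib] at this
    have h2 : ∀ j, ∑ i', La j i' * (Pi.single k (1 : ℝ) : Fin e → ℝ) i' = La j k := by
      intro j
      rw [Finset.sum_eq_single k]
      · simp
      · intro b _ hb
        simp [hb]
      · simp
    simp only [h2] at this
    rw [← add_assoc, h0 i, zero_add] at this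
    rw [this, Pi.single_apply]
  have h0' : ∀ i, (cb i : ℂ) + ∑ j, (Lb i j : ℂ) * (ca j : ℂ) = 0 := by
    intro i
    have := h0 i
    exact_mod_cast this
  have h1' : ∀ i k, ∑ j, (Lb i j : ℂ) * (La j k : ℂ) = if i = k then 1 else 0 := by
    intro i k
    have := h1 i k
    split_ifs with hik
    · rw [if_pos hik] at this
      exact_mod_cast this
    · rw [if_neg hik] at this
      exact_mod_cast this
  funext k
  refine Fin.cases ?_ (fun k => ?_) k
  · rw [pull_zero, pull_zero]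
    simp only [pull_succ, Finset.mul_sum]
    rw [Finset.sum_comm, add_assoc, ← Finset.sum_add_distrib]
    have : ∀ i : Fin e, (cb i : ℂ) * s i.succ + ∑ j : Fin d, (ca j : ℂ) * ((Lb i j : ℂ) * s i.succ) = 0 := by
      intro i
      have h3 : ∑ j : Fin d, (ca j : ℂ) * ((Lb i j : ℂ) * s i.succ) =
          (∑ j, (Lb i j : ℂ) * (ca j : ℂ)) * s i.succ := by
        rw [Finset.sum_mul]
        exact Finset.sum_congr rfl fun j _ => by ring
      rw [h3, ← add_mul, h0' i, zero_mul]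
    simp only [this, Finset.sum_const_zero, add_zero]
  · rw [pull_succ]
    simp only [pull_succ, Finset.mul_sum]
    rw [Finset.sum_comm]
    have : ∀ i : Fin e, ∑ j : Fin d, (La j k : ℂ) * ((Lb i j : ℂ) * s i.succ) =
        (if i = k then 1 else 0) * s i.succ := by
      intro i
      rw [← h1' i k, Finset.sum_mul]
      exact Finset.sum_congr rfl fun j _ => by ring
    simp only [this, ite_mul, one_mul, zero_mul, Finset.sum_ite_eq', Finset.mem_univ, if_true]

/-- the lifting property passes to affine retracts, matrix form -/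
lemma lifting_of_retract' {C : Set (Fin d → ℝ)} {D : Set (Fin e → ℝ)}
    (hC : ∃ K : MatSeq d, Good C K) (hD : ∃ K' : MatSeq e, Good D K')
    (ca : Fin d → ℝ) (La : Fin d → Fin e → ℝ) (cb : Fin e → ℝ) (Lb : Fin e → Fin d → ℝ)
    (ha : ∀ x ∈ D, affR ca La x ∈ C) (hb : ∀ x ∈ C, affR cb Lb x ∈ D)
    (hab : ∀ x, affR cb Lb (affR ca La x) = x) (hLP : HasLiftingProperty C) :
    HasLiftingProperty D := by
  intro A B _ _ q hq φ hφ
  obtain ⟨Ψ, hΨ, hqΨ⟩ := hLP A B q hq (φ.comp (pull ca La)) (ucp_pull hD ca La ha hφ)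
  refine ⟨Ψ.comp (pull cb Lb), ucp_pull hC cb Lb hb hΨ, fun s => ?_⟩
  rw [LinearMap.comp_apply, hqΨ, LinearMap.comp_apply, pull_pull ca La cb Lb hab]

end H62.LPD
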